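import Mathlib
import Pool.Agent.W68.Her

set_option autoImplicit false

/-! One infinite set of times for all affine maps. -/

namespace Pool.Agent.W2helper64.HT

open Pool.Agent.W68.Her

/-- `z ↦ a z + b` -/
def S (a b : ℤ) (z : ℤ) : ℤ := a * z + b

lemma iter_eq (a b : ℤ) (t : ℕ) (z : ℤ) : (S a b)^[t] z = a ^ t * z + (S a b)^[t] 0 := by
  induction t with
  | zero => simp
  | succ t ih =>
    rw [Function.iterate_succ_apply', Function.iterate_succ_apply', ih]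
    unfold S
    ring

lemma iter_cop (a b : ℤ) (hab : IsCoprime a b) {t : ℕ} (ht : 1 ≤ t) : IsCoprime a ((S a b)^[t] 0) := by
  obtain ⟨s, rfl⟩ : ∃ s, t = s + 1 := ⟨t - 1, by omega⟩
  rw [Function.iterate_succ_apply']
  unfold S
  rw [add_comm]
  exact hab.add_mul_left_right _

/-- the forms of the orbit of `q n + r` -/
def frm (a b q r : ℤ) (t : ℕ) : ℤ × ℤ := (q * a ^ t, (S a b)^[t] r)

lemma frm_val (a b q r : ℤ) (t : ℕ) (n : ℤ) :
    (frm a b q r t).1 * n + (frm a b q r t).2 = (S a b)^[t] (q * n + r) := by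
  unfold frm
  rw [iter_eq a b t (q * n + r), iter_eq a b t r]
  ring

lemma frm_inj {a b q r : ℤ} (ha : 2 ≤ a) (hq : 1 ≤ q) : Function.Injective (frm a b q r) := by
  intro s t h
  have h1 : q * a ^ s = q * a ^ t := congrArg Prod.fst h
  have h2 := mul_left_cancel₀ (by omega : q ≠ 0) h1
  have h3 : ((a.toNat : ℕ) : ℤ) = a := Int.toNat_of_nonneg (by omega)
  rw [← h3] at h2
  have h4 : a.toNat ^ s = a.toNat ^ t := by exact_mod_cast h2
  exact Nat.pow_right_injective (by omega) h4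

lemma frm_cop {a b q r : ℤ} (hab : IsCoprime a b) {t : ℕ} (ht : 1 ≤ t)
    (hqr : IsCoprime ((S a b)^[t] r) q) : IsCoprime (frm a b q r t).1 (frm a b q r t).2 := by
  unfold frm
  refine IsCoprime.mul_left hqr.symm (IsCoprime.pow_left ?_)
  obtain ⟨s, rfl⟩ : ∃ s, t = s + 1 := ⟨t - 1, by omega⟩
  have h1 := iter_cop a b hab ht
  show IsCoprime a ((S a b)^[s + 1] r)
  have h2 : (S a b)^[s + 1] r = (S a b)^[s + 1] 0 + a * (a ^ s * r) := by
    rw [iter_eq]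
    ring
  rw [h2]
  exact h1.add_mul_left_right _

/-- the default forms -/
lemma exists_enum : ∃ P : ℕ → ℤ × ℤ × ℤ × ℤ, (∀ j, 2 ≤ (P j).1 ∧ 1 ≤ (P j).2.2.1) ∧
    ∀ x : ℤ × ℤ × ℤ × ℤ, 2 ≤ x.1 → 1 ≤ x.2.2.1 → ∃ j, P j = x := by
  obtain ⟨f, hf⟩ := exists_surjective_nat (ℤ × ℤ × ℤ × ℤ)
  refine ⟨fun j => if 2 ≤ (f j).1 ∧ 1 ≤ (f j).2.2.1 then f j else (2, 1, 1, 0), ?_, ?_⟩
  · intro j
    simp only
    by_cases h : 2 ≤ (f j).1 ∧ 1 ≤ (f j).2.2.1
    · rw [if_pos h]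
      exact h
    · rw [if_neg h]
      norm_num
  · intro x h1 h2
    obtain ⟨j, rfl⟩ := hf x
    exact ⟨j, by
      show (if 2 ≤ (f j).1 ∧ 1 ≤ (f j).2.2.1 then f j else (2, 1, 1, 0)) = f j
      rw [if_pos ⟨h1, h2⟩]⟩

theorem main (V : Set ℕ) (hV : V.Infinite) : ∃ B ⊆ V, B.Infinite ∧
    ∀ (a b : ℤ), 2 ≤ a → IsCoprime a b → ∀ (q r : ℤ), 1 ≤ q → ∃ K : ℕ, ∀ I ⊆ B,
      (∀ t ∈ I, K ≤ t ∧ IsCoprime ((S a b)^[t] r) q) → ∀ R : ℕ,
        {n : ℕ | (n : ℤ) ≡ r [ZMOD q] ∧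
          ∀ t ≤ R, (((S a b)^[t] (n : ℤ)).toNat.Prime ↔ t ∈ I)}.Infinite := by
  classical
  obtain ⟨P, hP1, hP2⟩ := exists_enum
  obtain ⟨v, hvm, hvr⟩ : ∃ v : ℕ → ℕ, StrictMono v ∧ Set.range v = V :=
    ⟨Nat.nth (· ∈ V), Nat.nth_strictMono hV, Nat.range_nth_of_infinite hV⟩
  obtain ⟨β, hβ, h⟩ := main_forms (fun j i => frm (P j).1 (P j).2.1 (P j).2.2.1 (P j).2.2.2 (v i))
    (fun j => (frm_inj (hP1 j).1 (hP1 j).2).comp hvm.injective)
  refine ⟨Set.range (v ∘ β), ?_, Set.infinite_range_of_injective (hvm.injective.comp hβ.injective), ?_⟩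
  · rintro _ ⟨n, rfl⟩
    rw [← hvr]
    exact ⟨β n, rfl⟩
  intro a b ha hab q r hq
  obtain ⟨j, hj⟩ := hP2 (a, b, q, r) ha hq
  refine ⟨v (β j) + 1, fun I hI hIK R => ?_⟩
  have h1 := h j {i | v (β i) ∈ I} (by
    intro i hi
    obtain ⟨h2, h3⟩ := hIK _ hi
    have h4 : j < i := by
      by_contra hcon
      have : v (β i) ≤ v (β j) := hvm.monotone (hβ.monotone (not_lt.1 hcon))
      omega
    rw [hj]
    have ha1 : (1 : ℤ) ≤ a ^ (v (β i)) := one_le_pow₀ (by omega)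
    exact ⟨h4.le, by
      show 1 ≤ q * a ^ (v (β i))
      nlinarith, frm_cop hab (by omega) h3⟩)
  have himg : (fun i => frm (P j).1 (P j).2.1 (P j).2.2.1 (P j).2.2.2 (v (β i))) '' {i | v (β i) ∈ I} =
      frm a b q r '' I := by
    rw [hj]
    ext f
    constructor
    · rintro ⟨i, hi, rfl⟩
      exact ⟨_, hi, rfl⟩
    · rintro ⟨t, ht, rfl⟩
      obtain ⟨i, rfl⟩ := hI ht
      exact ⟨i, ht, rfl⟩
  rw [himg] at h1
  set T : Finset (ℤ × ℤ) := (Finset.range (R + 1)).image (frm a b q r) with hT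
  have h2 := h1 T (by
    intro f hf
    obtain ⟨t, -, rfl⟩ := Finset.mem_image.1 hf
    have ha1 : (1 : ℤ) ≤ a ^ t := one_le_pow₀ (by omega)
    show 1 ≤ q * a ^ t
    nlinarith)
  set W := {m : ℕ | ∀ f ∈ T, (Nat.Prime (f.1 * m + f.2).toNat ↔ f ∈ frm a b q r '' I)} with hW
  have h3 : (W \ Set.Iio r.natAbs).Infinite := h2.sdiff (Set.finite_Iio _)
  have hpos : ∀ m : ℕ, r.natAbs ≤ m → (((q * m + r).toNat : ℕ) : ℤ) = q * m + r := by
    intro m hm
    apply Int.toNat_of_nonneg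
    have h4 : (r.natAbs : ℤ) ≤ m := by exact_mod_cast hm
    rw [Int.natCast_natAbs] at h4
    have h5 := neg_abs_le r
    nlinarith
  have hinj : Set.InjOn (fun m : ℕ => (q * m + r).toNat) (W \ Set.Iio r.natAbs) := by
    intro m hm m' hm' hmm'
    have e1 := hpos m (not_lt.1 hm.2)
    have e2 := hpos m' (not_lt.1 hm'.2)
    simp only at hmm'
    rw [hmm', e2] at e1
    have e3 : q * m' = q * m := by linarith
    have e4 := mul_left_cancel₀ (by omega : q ≠ 0) e3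
    exact_mod_cast e4.symm
  refine (h3.image hinj).mono ?_
  rintro _ ⟨m, ⟨hm, hm2⟩, rfl⟩
  have e1 := hpos m (not_lt.1 hm2)
  refine ⟨?_, fun t ht => ?_⟩
  · simp only
    rw [e1]
    exact Int.modEq_iff_dvd.2 ⟨-m, by ring⟩
  · simp only
    rw [e1]
    have h5 := hm (frm a b q r t) (by
      rw [hT, Finset.mem_image]
      exact ⟨t, Finset.mem_range.2 (by omega), rfl⟩)
    rw [frm_val] at h5
    rw [h5]
    constructor
    · rintro ⟨s, hs, hst⟩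
      rwa [frm_inj ha hq hst] at hs
    · intro ht
      exact ⟨t, ht, rfl⟩

end Pool.Agent.W2helper64.HT
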